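import Pool.Agent.H37.CTO.Stmts
import Pool.Agent.H74.CTN.LTF

/-!
# Row LTG of the board cto
-/

set_option autoImplicit false

namespace Pool.CND

theorem ltg_thm (hPRF : S_PRF) (hPFN : S_PFN) (hNFN : S_NFN) (hRKP : S_RKP) (hHC1 : S_HC1)
    (hHC2 : S_HC2) (hHC3 : S_HC3) (hHC5 : S_HC5) : S_LTG := by
  intro p n k _ _ hchar G _ r lo hi hp hr
  have key : ∀ i, Finite (G i) ∧ HasCover k (G i) ∧ ∃ s : ℕ, NG k (G i) = p ^ s * r i ∧
      lo i ≤ s ∧ s ≤ hi i ∧ ¬ p ∣ r i := by
    intro i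
    rcases hr i with ⟨F, _, f, q, N, C, _, hf, hq, hF, hC, ⟨e⟩, hcase⟩ |
      ⟨F, _, f, q, σ, C, _, hf, hq, hF, hσ, hC, ⟨e⟩, hri, hlo, hhi⟩ |
      ⟨hp2, F, _, hcF, m, q, φ, hm, hq, hF, hφ, ⟨e⟩, hri, hlo, hhi⟩
    · have hpq : p ∣ q := hq ▸ dvd_pow_self p (by omega)
      have hq0 : 1 ≤ q := hq ▸ Nat.one_le_pow _ _ hp.one_lt.le
      have hfin : Finite F :=
        Nat.finite_of_card_ne_zero (by rw [hF, hq]; exact pow_ne_zero _ hp.ne_zero)
      have hfin2 : Finite (Matrix.SpecialLinearGroup (Fin N) F ⧸ C) := inferInstance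
      refine ⟨Finite.of_equiv _ e.symm.toEquiv, ?_⟩
      rcases hcase with ⟨hN, hri, hlo, hhi⟩ | ⟨hN, hri, hlo, hhi⟩
      · subst hN
        refine ⟨rkp_hc e (hHC1 p k F f q hp hchar hf hq hF C), 0, ?_, by omega, by omega, ?_⟩
        · rw [pow_zero, one_mul]
          exact rkx_one hRKP p k (G i) (r i) hp
            (Or.inl ⟨F, _, f, q, C, _, hf, hq, hF, hC, ⟨e⟩, hri⟩)
        · rw [hri]
          intro h
          have h1 : p ∣ q ^ 1 - 1 := by
            rw [pow_one]
            exact h.trans (Nat.div_dvd_of_dvd (Nat.gcd_dvd_right _ _))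
          exact ltf_not_dvd hp hpq hq0 le_rfl h1
      · by_cases hp2 : p = 2
        · rw [if_pos hp2] at hlo
          obtain ⟨s, hs, hNG⟩ := hNFN p k F f q N hp hchar hf hq hF hN C hC
          refine ⟨rkp_hc e (hHC5 p k F f q N hp hchar hf hq hF hN C), s, ?_, by omega,
            by omega, ?_⟩
          · rw [cng_thm k _ _ ⟨e⟩, hNG, hri]
          · rw [hri]
            exact ltf_lcm_not_dvd hp _ _ fun m hm =>
              ltf_not_dvd hp hpq hq0 (Finset.mem_Icc.1 hm).1
        · rw [if_neg hp2] at hlo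
          refine ⟨rkp_hc e (hHC5 p k F f q N hp hchar hf hq hF hN C), f * (N - 2), ?_,
            by omega, by omega, ?_⟩
          · rw [cng_thm k _ _ ⟨e⟩, hPFN p k F f q N hp hp2 hchar hf hq hF hN C hC, hri, pow_mul,
              ← hq]
          · rw [hri]
            exact ltf_lcm_not_dvd hp _ _ fun m hm =>
              ltf_not_dvd hp hpq hq0 (Finset.mem_Icc.1 hm).1
    · have hpq : p ∣ q := hq ▸ dvd_pow_self p (by omega)
      have hq0 : 1 ≤ q := hq ▸ Nat.one_le_pow _ _ hp.one_lt.le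
      have hfin : Finite F :=
        Nat.finite_of_card_ne_zero (by
          rw [hF, hq]; exact pow_ne_zero _ (pow_ne_zero _ hp.ne_zero))
      have hfin' : Finite (SU3 σ) := inferInstance
      refine ⟨Finite.of_equiv _ e.symm.toEquiv,
        rkp_hc e (hHC2 p k F f q σ hp hchar hf hq hF hσ C), f, ?_, by omega, by omega, ?_⟩
      · rw [hri, ← hq]
        exact rkx_one hRKP p k (G i) (q * (q - 1)) hp
          (Or.inr (Or.inl ⟨F, _, f, q, σ, C, _, hf, hq, hF, hσ, hC, ⟨e⟩, rfl⟩))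
      · rw [hri]
        have := ltf_not_dvd hp hpq hq0 (le_refl 1)
        rwa [pow_one] at this
    · subst hp2
      have hfin : Finite F := Nat.finite_of_card_ne_zero (by rw [hF, hq]; positivity)
      have hfin' : Finite (Sz φ) := inferInstance
      have hpq : 2 ∣ q := hq ▸ dvd_pow_self 2 (by omega)
      have hq0 : 1 ≤ q := hq ▸ Nat.one_le_pow _ _ (by norm_num)
      refine ⟨Finite.of_equiv _ e.symm.toEquiv,
        rkp_hc e (hHC3 m q k F φ hchar hm hq hF hφ), m, ?_, by omega, by omega, ?_⟩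
      · rw [hri]
        exact rkx_one hRKP 2 k (G i) (2 ^ m * (q - 1)) hp
          (Or.inr (Or.inr ⟨rfl, F, _, hcF, m, q, φ, hm, hq, hF, hφ, ⟨e⟩, rfl⟩))
      · rw [hri]
        have := ltf_not_dvd hp hpq hq0 (le_refl 1)
        rwa [pow_one] at this
  have hfin : ∀ i, Finite (G i) := fun i => (key i).1
  choose s hs using fun i => (key i).2.2
  refine ⟨(Finset.univ : Finset (Fin n)).sup s, ?_, fun i =>
    (hs i).2.1.trans (Finset.le_sup (f := s) (Finset.mem_univ i)), ?_⟩
  · rw [hPRF p n k G hp fun i => (key i).2.1, ← ltf_lcm hp s r fun i => (hs i).2.2.2]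
    congr 1
    funext i
    exact (hs i).1
  · rcases Finset.eq_empty_or_nonempty (Finset.univ : Finset (Fin n)) with h0 | h0
    · left
      rw [h0]
      simp
    · right
      obtain ⟨i, _, he⟩ := Finset.exists_mem_eq_sup _ h0 s
      exact ⟨i, he ▸ (hs i).2.2.1⟩

end Pool.CND
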